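import Pool.Agent.EVF.StmtsR

/-!
# Squad EVF, part R, row PRI: primitive points of a lattice
-/

namespace Pool.Agent.EVF.H70

open Pool.Agent.EVF

/-- the points of the lattice in one dyadic range of slopes -/
theorem dyadic (n : ℕ) (t : ℤ) (H : ℕ) (hn : 1 ≤ n) (S : Finset (ℤ × ℤ)) (j : ℕ)
    (hS : ∀ x ∈ S, IsCoprime x.1 x.2 ∧ |x.1| ≤ (H : ℤ) ∧ (n : ℤ) ∣ x.1 - t * x.2 ∧
      (2 : ℤ) ^ j ≤ x.2 ∧ x.2 < 2 ^ (j + 1)) :
    (S.card : ℝ) ≤ 8 * H * 2 ^ j / n + 1 := by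
  have hn0 : (0 : ℝ) < n := by exact_mod_cast hn
  have hB : (0 : ℝ) < 2 ^ j := by positivity
  set f : ℤ × ℤ → ℤ := fun x => ⌊((x.1 : ℝ) / x.2 + H / 2 ^ j) * (4 * (2 ^ j * 2 ^ j) / n)⌋ with hf
  have hx2 : ∀ x ∈ S, (2 : ℝ) ^ j ≤ x.2 ∧ (x.2 : ℝ) < 2 ^ (j + 1) := by
    intro x hx
    obtain ⟨-, -, -, h1, h2⟩ := hS x hx
    constructor
    · exact_mod_cast h1
    · exact_mod_cast h2
  have hrange : ∀ x ∈ S, f x ∈ Finset.Icc (0 : ℤ) ⌊8 * (H : ℝ) * 2 ^ j / n⌋ := by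
    intro x hx
    obtain ⟨h3, h4⟩ := hx2 x hx
    obtain ⟨-, h1, -⟩ := hS x hx
    have hx0 : (0 : ℝ) < x.2 := lt_of_lt_of_le hB h3
    have h1' : |(x.1 : ℝ)| ≤ H := by exact_mod_cast h1
    rw [abs_le] at h1'
    have h5 : |(x.1 : ℝ) / x.2| ≤ H / 2 ^ j := by
      rw [abs_div, abs_of_pos hx0]
      apply div_le_div₀ (by positivity) (abs_le.2 h1') hB h3
    rw [abs_le] at h5
    rw [Finset.mem_Icc]
    constructor
    · apply Int.floor_nonneg.2
      apply mul_nonneg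
      · linarith [h5.1]
      · positivity
    · apply Int.floor_le_floor
      have h6 : 8 * (H : ℝ) * 2 ^ j / n = (H / 2 ^ j + H / 2 ^ j) * (4 * (2 ^ j * 2 ^ j) / n) := by
        field_simp
        ring
      rw [h6]
      apply mul_le_mul_of_nonneg_right _ (by positivity)
      linarith [h5.2]
  have hinj : Set.InjOn f S := by
    intro x hx y hy hxy
    obtain ⟨hcx, -, hdx, -⟩ := hS x hx
    obtain ⟨hcy, -, hdy, -⟩ := hS y hy
    obtain ⟨h3, h4⟩ := hx2 x hx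
    obtain ⟨h5, h6⟩ := hx2 y hy
    have hx0 : (0 : ℝ) < x.2 := lt_of_lt_of_le hB h3
    have hy0 : (0 : ℝ) < y.2 := lt_of_lt_of_le hB h5
    have hx0' : 0 < x.2 := by exact_mod_cast hx0
    have hy0' : 0 < y.2 := by exact_mod_cast hy0
    have h7 := Int.abs_sub_lt_one_of_floor_eq_floor hxy
    have h8 : ((x.1 : ℝ) / x.2 + H / 2 ^ j) * (4 * (2 ^ j * 2 ^ j) / n) -
        ((y.1 : ℝ) / y.2 + H / 2 ^ j) * (4 * (2 ^ j * 2 ^ j) / n) =
        ((x.1 * y.2 - y.1 * x.2 : ℤ) : ℝ) * (4 * (2 ^ j * 2 ^ j) / n) / (x.2 * y.2) := by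
      push_cast
      field_simp
      ring
    rw [h8, abs_div, abs_mul, abs_of_pos (mul_pos hx0 hy0)] at h7
    rw [abs_of_pos (show (0 : ℝ) < 4 * (2 ^ j * 2 ^ j) / n by positivity)] at h7
    rw [div_lt_one (mul_pos hx0 hy0)] at h7
    -- the determinant
    have hdvd : (n : ℤ) ∣ x.1 * y.2 - y.1 * x.2 := by
      have : x.1 * y.2 - y.1 * x.2 = (x.1 - t * x.2) * y.2 - (y.1 - t * y.2) * x.2 := by ring
      rw [this]
      exact dvd_sub (Dvd.dvd.mul_right hdx _) (Dvd.dvd.mul_right hdy _)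
    have h0 : x.1 * y.2 - y.1 * x.2 = 0 := by
      by_contra hne
      have h9 : (n : ℤ) ≤ |x.1 * y.2 - y.1 * x.2| := by
        have := Int.natAbs_dvd_natAbs.2 hdvd
        rw [Int.natAbs_natCast] at this
        have h10 := Nat.le_of_dvd (Int.natAbs_pos.2 hne) this
        rw [Int.abs_eq_natAbs]
        exact_mod_cast h10
      have h9' : (n : ℝ) ≤ |((x.1 * y.2 - y.1 * x.2 : ℤ) : ℝ)| := by exact_mod_cast h9
      have h10 : (n : ℝ) * (4 * (2 ^ j * 2 ^ j) / n) ≤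
          |((x.1 * y.2 - y.1 * x.2 : ℤ) : ℝ)| * (4 * (2 ^ j * 2 ^ j) / n) :=
        mul_le_mul_of_nonneg_right h9' (by positivity)
      have h11 : (n : ℝ) * (4 * (2 ^ j * 2 ^ j) / n) = 4 * (2 ^ j * 2 ^ j) := by
        field_simp
      have h12 : (x.2 : ℝ) * y.2 ≤ 2 ^ (j + 1) * 2 ^ (j + 1) :=
        mul_le_mul h4.le h6.le hy0.le (by positivity)
      have h13 : (2 : ℝ) ^ (j + 1) * 2 ^ (j + 1) = 4 * (2 ^ j * 2 ^ j) := by
        rw [pow_succ]
        ring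
      linarith
    have h1 : x.1 * y.2 = y.1 * x.2 := by linarith
    have hd1 : x.2 ∣ y.2 := by
      have : x.2 ∣ x.1 * y.2 := by
        rw [h1]
        exact Dvd.intro_left _ rfl
      exact hcx.symm.dvd_of_dvd_mul_left this
    have hd2 : y.2 ∣ x.2 := by
      have : y.2 ∣ y.1 * x.2 := by
        rw [← h1]
        exact Dvd.intro_left _ rfl
      exact hcy.symm.dvd_of_dvd_mul_left this
    have he2 : x.2 = y.2 := Int.dvd_antisymm hx0'.le hy0'.le hd1 hd2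
    have he1 : x.1 = y.1 := by
      rw [he2] at h1
      exact mul_right_cancel₀ hy0'.ne' h1
    exact Prod.ext he1 he2
  have hcard := Finset.card_le_card_of_injOn f hrange hinj
  rw [Int.card_Icc, sub_zero] at hcard
  have h1 : (0 : ℝ) ≤ 8 * H * 2 ^ j / n := by positivity
  have h2 : (0 : ℤ) ≤ ⌊8 * (H : ℝ) * 2 ^ j / n⌋ := Int.floor_nonneg.2 h1
  have h3 : ((⌊8 * (H : ℝ) * 2 ^ j / n⌋ + 1).toNat : ℝ) = (⌊8 * (H : ℝ) * 2 ^ j / n⌋ : ℝ) + 1 := by
    have : ((⌊8 * (H : ℝ) * 2 ^ j / n⌋ + 1).toNat : ℤ) = ⌊8 * (H : ℝ) * 2 ^ j / n⌋ + 1 :=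
      Int.toNat_of_nonneg (by linarith)
    exact_mod_cast this
  calc (S.card : ℝ) ≤ ((⌊8 * (H : ℝ) * 2 ^ j / n⌋ + 1).toNat : ℝ) := by exact_mod_cast hcard
    _ = (⌊8 * (H : ℝ) * 2 ^ j / n⌋ : ℝ) + 1 := h3
    _ ≤ 8 * H * 2 ^ j / n + 1 := by linarith [Int.floor_le (8 * (H : ℝ) * 2 ^ j / n)]

theorem pri : PriStmt := by
  classical
  refine ⟨40, by norm_num, ?_⟩
  intro n t H hn hH
  have hn0 : (0 : ℝ) < n := by exact_mod_cast hn
  have hH0 : (1 : ℝ) ≤ H := by exact_mod_cast hH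
  set F : Finset (ℤ × ℤ) := (Finset.Icc (-(H : ℤ)) H ×ˢ Finset.Icc (-(H : ℤ)) H).filter
    (fun x => IsCoprime x.1 x.2 ∧ (n : ℤ) ∣ x.1 - t * x.2) with hF
  have hset : {x : ℤ × ℤ | x ∈ PB H ∧ (n : ℤ) ∣ x.1 - t * x.2} = ↑F := by
    ext x
    rw [hF, Finset.coe_filter, Set.mem_ofPred_eq, Set.mem_ofPred_eq, Finset.mem_product,
      Finset.mem_Icc, Finset.mem_Icc, PB, Set.mem_ofPred_eq, abs_le, abs_le]
    tauto
  rw [hset, Set.ncard_coe_finset]
  -- the parts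
  set F1 := F.filter (fun x => 0 < x.2) with hF1
  set F2 := F.filter (fun x => x.2 < 0) with hF2
  set F0 := F.filter (fun x => x.2 = 0) with hF0
  have hmem : ∀ x ∈ F, IsCoprime x.1 x.2 ∧ |x.1| ≤ (H : ℤ) ∧ |x.2| ≤ (H : ℤ) ∧
      (n : ℤ) ∣ x.1 - t * x.2 := by
    intro x hx
    rw [hF, Finset.mem_filter, Finset.mem_product, Finset.mem_Icc, Finset.mem_Icc] at hx
    exact ⟨hx.2.1, abs_le.2 hx.1.1, abs_le.2 hx.1.2, hx.2.2⟩
  have hmk : ∀ x : ℤ × ℤ, IsCoprime x.1 x.2 → |x.1| ≤ (H : ℤ) → |x.2| ≤ (H : ℤ) →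
      (n : ℤ) ∣ x.1 - t * x.2 → x ∈ F := by
    intro x h1 h2 h3 h4
    rw [hF, Finset.mem_filter, Finset.mem_product, Finset.mem_Icc, Finset.mem_Icc]
    exact ⟨⟨abs_le.1 h2, abs_le.1 h3⟩, h1, h4⟩
  have hsplit : F.card ≤ F0.card + F1.card + F2.card := by
    have h1 : F ⊆ F0 ∪ F1 ∪ F2 := by
      intro x hx
      simp only [hF0, hF1, hF2, Finset.mem_union, Finset.mem_filter]
      rcases lt_trichotomy x.2 0 with h | h | h
      · exact Or.inr ⟨hx, h⟩
      · exact Or.inl (Or.inl ⟨hx, h⟩)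
      · exact Or.inl (Or.inr ⟨hx, h⟩)
    calc F.card ≤ (F0 ∪ F1 ∪ F2).card := Finset.card_le_card h1
      _ ≤ (F0 ∪ F1).card + F2.card := Finset.card_union_le _ _
      _ ≤ F0.card + F1.card + F2.card := by
        have := Finset.card_union_le F0 F1
        omega
  have h0 : F0.card ≤ 2 := by
    have h1 : F0 ⊆ {((1 : ℤ), (0 : ℤ)), (-1, 0)} := by
      intro x hx
      rw [hF0, Finset.mem_filter] at hx
      obtain ⟨h1, -⟩ := hmem x hx.1
      rw [hx.2, isCoprime_zero_right] at h1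
      rw [Finset.mem_insert, Finset.mem_singleton]
      rcases Int.isUnit_iff.1 h1 with h | h
      · exact Or.inl (Prod.ext h hx.2)
      · exact Or.inr (Prod.ext h hx.2)
    exact (Finset.card_le_card h1).trans (Finset.card_le_two)
  have h21 : F2.card ≤ F1.card := by
    apply Finset.card_le_card_of_injOn (fun x : ℤ × ℤ => (-x.1, -x.2))
    · intro x hx
      rw [hF2, Finset.mem_coe, Finset.mem_filter] at hx
      obtain ⟨h1, h2, h3, h4⟩ := hmem x hx.1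
      rw [hF1, Finset.mem_coe, Finset.mem_filter]
      refine ⟨hmk _ h1.neg_neg (by rw [abs_neg]; exact h2) (by rw [abs_neg]; exact h3) ?_, ?_⟩
      · have : -x.1 - t * -x.2 = -(x.1 - t * x.2) := by ring
        rw [this]
        exact (dvd_neg).2 h4
      · exact neg_pos.2 hx.2
    · intro x _ y _ hxy
      have h1 := congrArg Prod.fst hxy
      have h2 := congrArg Prod.snd hxy
      simp only [neg_inj] at h1 h2
      exact Prod.ext h1 h2
  -- the dyadic parts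
  set J := Nat.log 2 H with hJ
  have h1 : (F1.card : ℝ) ≤ ∑ j ∈ Finset.range (J + 1), (8 * (H : ℝ) * 2 ^ j / n + 1) := by
    have hsub : F1 ⊆ (Finset.range (J + 1)).biUnion (fun j => F1.filter
        (fun x => (2 : ℤ) ^ j ≤ x.2 ∧ x.2 < 2 ^ (j + 1))) := by
      intro x hx
      rw [Finset.mem_biUnion]
      have hx' := hx
      rw [hF1, Finset.mem_filter] at hx'
      obtain ⟨-, -, h3, -⟩ := hmem x hx'.1
      obtain ⟨b, hb⟩ : ∃ b : ℕ, x.2 = b := ⟨x.2.toNat, (Int.toNat_of_nonneg hx'.2.le).symm⟩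
      have hb0 : b ≠ 0 := by
        rintro rfl
        rw [hb] at hx'
        exact absurd hx'.2 (by norm_num)
      have hbH : b ≤ H := by
        rw [hb] at h3
        have := (abs_le.1 h3).2
        exact_mod_cast this
      refine ⟨Nat.log 2 b, ?_, ?_⟩
      · rw [Finset.mem_range]
        exact Nat.lt_succ_of_le (Nat.log_mono_right hbH)
      · rw [Finset.mem_filter]
        refine ⟨hx, ?_, ?_⟩
        · rw [hb]
          exact_mod_cast Nat.pow_log_le_self 2 hb0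
        · rw [hb]
          exact_mod_cast Nat.lt_pow_succ_log_self (by norm_num) b
    calc (F1.card : ℝ) ≤ ((Finset.range (J + 1)).biUnion (fun j => F1.filter
          (fun x => (2 : ℤ) ^ j ≤ x.2 ∧ x.2 < 2 ^ (j + 1)))).card := by
            exact_mod_cast Finset.card_le_card hsub
      _ ≤ ((∑ j ∈ Finset.range (J + 1), (F1.filter
          (fun x => (2 : ℤ) ^ j ≤ x.2 ∧ x.2 < 2 ^ (j + 1))).card : ℕ) : ℝ) := by
            exact_mod_cast Finset.card_biUnion_le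
      _ = ∑ j ∈ Finset.range (J + 1), ((F1.filter
          (fun x => (2 : ℤ) ^ j ≤ x.2 ∧ x.2 < 2 ^ (j + 1))).card : ℝ) := by push_cast; rfl
      _ ≤ ∑ j ∈ Finset.range (J + 1), (8 * (H : ℝ) * 2 ^ j / n + 1) := by
            apply Finset.sum_le_sum
            intro j _
            apply dyadic n t H hn
            intro x hx
            rw [Finset.mem_filter] at hx
            have hx' := hx.1
            rw [hF1, Finset.mem_filter] at hx'
            obtain ⟨h1, h2, h3, h4⟩ := hmem x hx'.1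
            exact ⟨h1, h2, h4, hx.2.1, hx.2.2⟩
  have h2 : ∑ j ∈ Finset.range (J + 1), (8 * (H : ℝ) * 2 ^ j / n + 1) ≤
      16 * (H : ℝ) ^ 2 / n + (J + 1) := by
    rw [Finset.sum_add_distrib, Finset.sum_const, Finset.card_range, nsmul_eq_mul, mul_one]
    have h3 : ∑ j ∈ Finset.range (J + 1), (8 * (H : ℝ) * 2 ^ j / n) =
        8 * H / n * ∑ j ∈ Finset.range (J + 1), (2 : ℝ) ^ j := by
      rw [Finset.mul_sum]
      refine Finset.sum_congr rfl fun j _ => by ring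
    have h4 : ∑ j ∈ Finset.range (J + 1), (2 : ℝ) ^ j ≤ 2 * H := by
      rw [geom_sum_eq (by norm_num)]
      have h5 : (2 : ℝ) ^ J ≤ H := by
        exact_mod_cast Nat.pow_log_le_self 2 (by omega : H ≠ 0)
      rw [pow_succ]
      have : (2 : ℝ) - 1 = 1 := by norm_num
      rw [this, div_one]
      linarith
    rw [h3]
    have h5 : 8 * (H : ℝ) / n * ∑ j ∈ Finset.range (J + 1), (2 : ℝ) ^ j ≤
        8 * H / n * (2 * H) := mul_le_mul_of_nonneg_left h4 (by positivity)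
    have h6 : 8 * (H : ℝ) / n * (2 * H) = 16 * (H : ℝ) ^ 2 / n := by ring
    push_cast
    linarith
  have hlog : (J : ℝ) ≤ 2 * Real.log H := by
    have h3 : (2 : ℝ) ^ J ≤ H := by
      exact_mod_cast Nat.pow_log_le_self 2 (by omega : H ≠ 0)
    have h4 := Real.log_le_log (by positivity) h3
    rw [Real.log_pow] at h4
    have h5 : (0.5 : ℝ) < Real.log 2 := by
      have := Real.log_two_gt_d9
      linarith
    have h6 : (0 : ℝ) ≤ J := Nat.cast_nonneg _
    nlinarith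
  have hsplit' : (F.card : ℝ) ≤ F0.card + F1.card + F2.card := by exact_mod_cast hsplit
  have h0' : (F0.card : ℝ) ≤ 2 := by exact_mod_cast h0
  have h21' : (F2.card : ℝ) ≤ F1.card := by exact_mod_cast h21
  have hlog0 : 0 ≤ Real.log H := Real.log_nonneg hH0
  have hq : 0 ≤ (H : ℝ) ^ 2 / n := by positivity
  have hq' : 16 * (H : ℝ) ^ 2 / n = 16 * ((H : ℝ) ^ 2 / n) := by ring
  rw [hq'] at h2
  nlinarith

end Pool.Agent.EVF.H70
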