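import Pool.Agent.EVF.StmtsR
import Pool.Agent.Helper24_EVF.KPT
import Pool.Agent.Helper59_EVF.SEP
import Pool.Agent.Helper18_Rad.RTC

/-!
# Squad EVF, part R, row ROO: classes of roots
-/

namespace Pool.Agent.EVF.H70

open Polynomial Pool.Agent.EVF

/-- a Bezout identity with integer coefficients -/
theorem bezout (R : ℤ[X]) (h : (R.map (Int.castRingHom ℚ)).Separable) :
    ∃ (N : ℤ) (U V : ℤ[X]), N ≠ 0 ∧ U * R + V * derivative R = C N := by
  obtain ⟨u, v, huv⟩ := h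
  obtain ⟨b, hb, hU⟩ := IsLocalization.integerNormalization_spec
    (nonZeroDivisors ℤ) u
  obtain ⟨c, hc, hV⟩ := IsLocalization.integerNormalization_spec
    (nonZeroDivisors ℤ) v
  have hb0 : b ≠ 0 := nonZeroDivisors.ne_zero hb
  have hc0 : c ≠ 0 := nonZeroDivisors.ne_zero hc
  have e : algebraMap ℤ ℚ = Int.castRingHom ℚ := rfl
  rw [e] at hU hV
  have hU' : (IsLocalization.integerNormalization (nonZeroDivisors ℤ) u).map (Int.castRingHom ℚ) =
      C (b : ℚ) * u := by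
    rw [hU]
    ext i
    simp
  have hV' : (IsLocalization.integerNormalization (nonZeroDivisors ℤ) v).map (Int.castRingHom ℚ) =
      C (c : ℚ) * v := by
    rw [hV]
    ext i
    simp
  refine ⟨b * c, C c * IsLocalization.integerNormalization (nonZeroDivisors ℤ) u,
    C b * IsLocalization.integerNormalization (nonZeroDivisors ℤ) v, mul_ne_zero hb0 hc0, ?_⟩
  apply Polynomial.map_injective (Int.castRingHom ℚ) (RingHom.injective_int _)
  rw [Polynomial.map_add, Polynomial.map_mul, Polynomial.map_mul, Polynomial.map_mul,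
    Polynomial.map_mul, hU', hV', Polynomial.map_C, Polynomial.map_C, Polynomial.map_C,
    ← Polynomial.derivative_map]
  have h2 : C ((Int.castRingHom ℚ) (b * c)) = C ((Int.castRingHom ℚ) b) *
      C ((Int.castRingHom ℚ) c) := by rw [map_mul, map_mul]
  rw [h2, ← mul_one (C ((Int.castRingHom ℚ) b) * C ((Int.castRingHom ℚ) c)), ← huv]
  simp only [eq_intCast]
  ring

theorem loc_of_sep (R : ℤ[X]) (hR : R.leadingCoeff ≠ 0)
    (h : (R.map (Int.castRingHom ℚ)).Separable) : ∃ K : ℕ, 1 ≤ K ∧ RAD.Loc R K := by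
  obtain ⟨N, U, V, hN, hUV⟩ := bezout R h
  refine ⟨N.natAbs * R.leadingCoeff.natAbs,
    Nat.mul_pos (Int.natAbs_pos.2 hN) (Int.natAbs_pos.2 hR), ?_⟩
  intro p _ hpK
  constructor
  · intro h1
    exact hpK (Dvd.dvd.mul_left (Int.natCast_dvd.1 h1) _)
  · intro c h1 h2
    apply hpK
    apply Dvd.dvd.mul_right
    apply Int.natCast_dvd.1
    have h3 := congrArg (Polynomial.eval c) hUV
    rw [Polynomial.eval_add, Polynomial.eval_mul, Polynomial.eval_mul, Polynomial.eval_C] at h3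
    rw [← h3]
    exact dvd_add (Dvd.dvd.mul_left h1 _) (Dvd.dvd.mul_left h2 _)

theorem bv_smul {φ : MvPolynomial (Fin 2) ℤ} {s : ℕ} (hφ : φ.IsHomogeneous s) (l a b : ℤ) :
    bv φ (l * a) (l * b) = l ^ s * bv φ a b := by
  rw [H24.bv_eq, H24.bv_eq, Finset.mul_sum]
  refine Finset.sum_congr rfl fun d hd => ?_
  have h := H24.deg_supp hφ hd
  rw [mul_pow, mul_pow, ← h, pow_add]
  ring

theorem bv_mod (φ : MvPolynomial (Fin 2) ℤ) (n : ℕ) {a b a' b' : ℤ}
    (ha : (a : ZMod n) = a') (hb : (b : ZMod n) = b') :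
    ((bv φ a b : ℤ) : ZMod n) = (bv φ a' b' : ℤ) := by
  rw [H24.bv_eq, H24.bv_eq]
  push_cast
  rw [ha, hb]

theorem roo : RooStmt := by
  intro φ s hφ hirr h0 hs
  obtain ⟨R, hdeg, hsep, hlc, hev⟩ := H59.sep φ s hφ hirr hs 0 1 1 0 (by norm_num) h0
  have hev' : ∀ c : ℤ, R.eval c = bv φ c 1 := fun c => by
    rw [hev c]
    congr 1 <;> ring
  obtain ⟨K, hK, hLoc⟩ := loc_of_sep R (by rw [hlc]; exact h0) hsep
  refine ⟨K, hK, ?_⟩
  intro n hn hnK
  obtain ⟨S, hS, hc⟩ := RAD.H18.rtc R K s hdeg hLoc n hn hnK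
  refine ⟨S, hS, ?_⟩
  intro a b hab hdvd
  -- `b` is prime to `n`
  have hbn : IsCoprime b (n : ℤ) := by
    rw [Int.isCoprime_iff_gcd_eq_one]
    by_contra hne
    obtain ⟨p, hp, hpd⟩ := Nat.exists_prime_and_dvd hne
    have hpb : (p : ℤ) ∣ b := (Int.natCast_dvd_natCast.2 hpd).trans (Int.gcd_dvd_left _ _)
    have hpn : (p : ℤ) ∣ (n : ℤ) := (Int.natCast_dvd_natCast.2 hpd).trans (Int.gcd_dvd_right _ _)
    have hpn' : p ∣ n := Int.natCast_dvd_natCast.1 hpn
    have hpK : ¬ p ∣ K := by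
      intro h
      have h1 : p ∣ Nat.gcd n K := Nat.dvd_gcd hpn' h
      rw [hnK] at h1
      exact hp.one_lt.ne' (Nat.dvd_one.1 h1)
    have hplc := (hLoc p hp hpK).1
    have h1 : ((bv φ a b : ℤ) : ZMod p) = (bv φ (a * 1) (a * 0) : ℤ) := by
      apply bv_mod
      · rw [mul_one]
      · rw [mul_zero]
        exact_mod_cast (ZMod.intCast_zmod_eq_zero_iff_dvd b p).2 hpb
    rw [bv_smul hφ, (ZMod.intCast_zmod_eq_zero_iff_dvd _ p).2 (hpn.trans hdvd)] at h1
    have h2 : (p : ℤ) ∣ a ^ s * bv φ 1 0 := (ZMod.intCast_zmod_eq_zero_iff_dvd _ p).1 h1.symm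
    rcases (Nat.prime_iff_prime_int.1 hp).dvd_or_dvd h2 with h3 | h3
    · have h4 : (p : ℤ) ∣ a := (Nat.prime_iff_prime_int.1 hp).dvd_of_dvd_pow h3
      exact (Nat.prime_iff_prime_int.1 hp).not_isUnit (hab.isUnit_of_dvd' h4 hpb)
    · rw [hlc] at hplc
      exact hplc h3
  obtain ⟨u, w, huw⟩ := hbn
  -- `u` is the inverse of `b` modulo `n`
  have hub : ((u * b : ℤ) : ZMod n) = 1 := by
    have h1 : u * b = 1 - w * n := by linarith
    rw [h1]
    push_cast
    simp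
  have hR : (n : ℤ) ∣ R.eval (u * a) := by
    rw [hev', ← ZMod.intCast_zmod_eq_zero_iff_dvd _ n]
    have h1 : ((bv φ (u * a) 1 : ℤ) : ZMod n) = (bv φ (u * a) (u * b) : ℤ) := by
      apply bv_mod
      · rfl
      · rw [hub]
        simp
    rw [h1, bv_smul hφ]
    push_cast
    rw [(ZMod.intCast_zmod_eq_zero_iff_dvd _ n).2 hdvd, mul_zero]
  obtain ⟨c₀, hc₀, hmod⟩ := hc (u * a) hR
  refine ⟨c₀, hc₀, ?_⟩
  rw [← ZMod.intCast_zmod_eq_zero_iff_dvd _ n]
  have h1 : ((u * a : ℤ) : ZMod n) = (c₀ : ZMod n) := (ZMod.intCast_eq_intCast_iff _ _ n).2 hmod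
  push_cast at h1 hub ⊢
  have h2 : (a : ZMod n) = (u * b) * a := by rw [hub, one_mul]
  rw [h2, ← h1]
  ring

end Pool.Agent.EVF.H70
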