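import Pool.Agent.EVF.StmtsG

set_option autoImplicit false

namespace Pool.Agent.EVF.H70

open Finset Polynomial

theorem div : DivStmt := by
  intro f q R M G lam d hR hlam hM hG hf hl hq hfq
  set e := f.natDegree with he
  set a : ℕ → ℝ := fun k => ‖q.coeff k‖ * R ^ k with ha
  have ha0 : ∀ k, 0 ≤ a k := fun k => by positivity
  have hak : ∀ k, d < k → a k = 0 := by
    intro k hk
    have : q.coeff k = 0 := coeff_eq_zero_of_natDegree_lt (lt_of_le_of_lt hq hk)
    simp only [ha, this, norm_zero, zero_mul]
  set N := e + d + 1 with hN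
  set S : ℕ → ℝ := fun k => ∑ j ∈ Ico k N, a j with hS
  have hS0 : ∀ k, 0 ≤ S k := fun k => sum_nonneg fun j _ => ha0 j
  set x := 1 + M / lam with hx
  have hx1 : 1 ≤ x := by
    have : 0 ≤ M / lam := by positivity
    linarith
  set g := G / lam with hg
  have hg0 : 0 ≤ g := by positivity
  -- the recursion
  have h1 : ∀ k, k ≤ d → a k ≤ g + M / lam * S (k + 1) := by
    intro k hk
    have h2 : (f * q).coeff (e + k) = f.leadingCoeff * q.coeff k +
        ∑ j ∈ Ico (k + 1) (e + k + 1), f.coeff (e + k - j) * q.coeff j := by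
      rw [mul_comm f q, coeff_mul, Finset.Nat.sum_antidiagonal_eq_sum_range_succ_mk,
        Finset.range_eq_Ico, ← Finset.sum_Ico_consecutive _ (Nat.zero_le k) (by omega : k ≤ e + k + 1),
        Finset.sum_eq_sum_Ico_succ_bot (by omega : k < e + k + 1)]
      have h3 : ∑ j ∈ Ico 0 k, q.coeff j * f.coeff (e + k - j) = 0 := by
        refine sum_eq_zero fun j hj => ?_
        rw [mem_Ico] at hj
        rw [coeff_eq_zero_of_natDegree_lt (p := f) (by omega), mul_zero]
      rw [h3, zero_add]
      simp only [Nat.add_sub_cancel]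
      rw [mul_comm, leadingCoeff]
      congr 1
      exact sum_congr rfl fun j _ => mul_comm _ _
    have h3 : ‖f.leadingCoeff * q.coeff k‖ ≤ ‖(f * q).coeff (e + k)‖ +
        ∑ j ∈ Ico (k + 1) (e + k + 1), ‖f.coeff (e + k - j) * q.coeff j‖ := by
      have : f.leadingCoeff * q.coeff k = (f * q).coeff (e + k) -
        ∑ j ∈ Ico (k + 1) (e + k + 1), f.coeff (e + k - j) * q.coeff j := by rw [h2]; ring
      rw [this]
      refine (norm_sub_le _ _).trans ?_
      gcongr
      exact norm_sum_le _ _
    have h4 := mul_le_mul_of_nonneg_right h3 (pow_nonneg hR.le (e + k))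
    rw [add_mul, sum_mul] at h4
    have h5 : ∑ j ∈ Ico (k + 1) (e + k + 1), ‖f.coeff (e + k - j) * q.coeff j‖ * R ^ (e + k) ≤
        M * S (k + 1) := by
      rw [hS, mul_sum]
      have h6 : ∀ j ∈ Ico (k + 1) (e + k + 1),
          ‖f.coeff (e + k - j) * q.coeff j‖ * R ^ (e + k) ≤ M * a j := by
        intro j hj
        rw [mem_Ico] at hj
        have h7 : R ^ (e + k) = R ^ (e + k - j) * R ^ j := by
          rw [← pow_add]; congr 1; omega
        rw [norm_mul, h7]
        have := mul_le_mul_of_nonneg_right (hf (e + k - j)) (ha0 j)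
        simp only [ha] at this ⊢
        linarith
      refine (sum_le_sum h6).trans ?_
      refine sum_le_sum_of_subset_of_nonneg ?_ fun j _ _ => mul_nonneg hM (ha0 j)
      exact Ico_subset_Ico_right (by omega)
    have h6 : ‖f.leadingCoeff * q.coeff k‖ * R ^ (e + k) =
        (‖f.leadingCoeff‖ * R ^ e) * a k := by
      rw [norm_mul, pow_add]
      simp only [ha]
      ring
    rw [h6] at h4
    have h7 : lam * a k ≤ G + M * S (k + 1) := by
      have := mul_le_mul_of_nonneg_right hl (ha0 k)
      have := hfq (e + k)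
      linarith
    have h8 : g + M / lam * S (k + 1) = (G + M * S (k + 1)) / lam := by
      rw [hg]; ring
    rw [h8, le_div_iff₀ hlam]
    linarith
  have h2 : ∀ m, m ≤ d → S (d - m) ≤ (m + 1) * g * x ^ m := by
    intro m
    induction m with
    | zero =>
      intro _
      have h3 : S (d + 1) = 0 := by
        refine sum_eq_zero fun j hj => ?_
        rw [mem_Ico] at hj
        exact hak j (by omega)
      have h4 : S d = a d + S (d + 1) := Finset.sum_eq_sum_Ico_succ_bot (by omega) a
      have h5 := h1 d le_rfl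
      rw [h3] at h4 h5
      simp only [Nat.sub_zero, h4]
      push_cast
      linarith
    | succ m ih =>
      intro hm
      have h3 := ih (by omega)
      have h4 : S (d - (m + 1)) = a (d - (m + 1)) + S (d - (m + 1) + 1) :=
        Finset.sum_eq_sum_Ico_succ_bot (by omega) a
      have h5 := h1 (d - (m + 1)) (by omega)
      have h6 : d - (m + 1) + 1 = d - m := by omega
      rw [h6] at h4 h5
      rw [h4]
      have h7 : a (d - (m + 1)) + S (d - m) ≤ g + x * S (d - m) := by
        rw [hx]; linarith
      refine h7.trans ?_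
      have h8 : x * S (d - m) ≤ x * ((m + 1) * g * x ^ m) :=
        mul_le_mul_of_nonneg_left h3 (by linarith)
      have h9 : (1 : ℝ) ≤ x ^ (m + 1) := one_le_pow₀ hx1
      have h10 : g * 1 ≤ g * x ^ (m + 1) := mul_le_mul_of_nonneg_left h9 hg0
      push_cast
      have h11 : x * ((m + 1) * g * x ^ m) = (m + 1) * (g * x ^ (m + 1)) := by
        rw [pow_succ]; ring
      rw [h11] at h8
      linarith
  intro k
  rcases le_or_gt k d with hk | hk
  · have h3 := h2 d le_rfl
    rw [Nat.sub_self] at h3
    have h4 : a k ≤ S 0 := single_le_sum (f := a) (fun j _ => ha0 j) (mem_Ico.2 ⟨Nat.zero_le _, by omega⟩)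
    exact h4.trans h3
  · have := hak k hk
    change a k ≤ _
    rw [this]
    positivity

end Pool.Agent.EVF.H70
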